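import Pool.Agent.X166.EP.Main

open Polynomial Pool.Agent.X166.EP

namespace Pool.Agent.Results.MP_a687e6_pr.EntropyPower

/-- **The finite free entropy power inequality (Q1).**  Let `d ≥ 2`, let `p = rootPoly lam` and
`q = rootPoly mu` be monic real-rooted polynomials of degree `d` with root vectors `lam`, `mu`.
Then `p ⊞_d q` is again of the form `rootPoly nu`, and for every such root vector `nu`
`Dis(nu)^(1/N) ≥ Dis(lam)^(1/N) + Dis(mu)^(1/N)` with `N = d.choose 2`. -/
theorem result (d : ℕ) (hd : 2 ≤ d) (lam mu : Fin d → ℝ) :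
    (∃ nu : Fin d → ℝ, boxPlus d (rootPoly lam) (rootPoly mu) = rootPoly nu) ∧
    ∀ nu : Fin d → ℝ, boxPlus d (rootPoly lam) (rootPoly mu) = rootPoly nu →
      Dis lam ^ (1 / (d.choose 2 : ℝ)) + Dis mu ^ (1 / (d.choose 2 : ℝ)) ≤
        Dis nu ^ (1 / (d.choose 2 : ℝ)) :=
  entropy_power d hd lam mu

end Pool.Agent.Results.MP_a687e6_pr.EntropyPower
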