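import Pool.Agent.X166.EP.Main

open Polynomial Pool.Agent.X166.EP

namespace Pool.Agent.Results.MP_a687e6_pr.EqualityCase

/-- **Equality in the finite free entropy power inequality (Q2).**  Let `d ≥ 2` and let
`p = rootPoly lam`, `q = rootPoly mu` have nonzero discriminants, with `p ⊞_d q = rootPoly nu`.
If `Dis(nu)^(1/N) = Dis(lam)^(1/N) + Dis(mu)^(1/N)`, `N = d.choose 2`, then `p` and `q` are both
generalized Hermite polynomials `exp(-m D - (v / (2(d-1))) D²) x^d` with `v ≥ 0`. -/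
theorem result (d : ℕ) (hd : 2 ≤ d) (lam mu nu : Fin d → ℝ) (hl : 0 < Dis lam)
    (hm : 0 < Dis mu) (hnu : boxPlus d (rootPoly lam) (rootPoly mu) = rootPoly nu)
    (heq : Dis nu ^ (1 / (d.choose 2 : ℝ)) =
      Dis lam ^ (1 / (d.choose 2 : ℝ)) + Dis mu ^ (1 / (d.choose 2 : ℝ))) :
    (∃ m v : ℝ, 0 ≤ v ∧ rootPoly lam = hermiteGen d m v) ∧
    (∃ m v : ℝ, 0 ≤ v ∧ rootPoly mu = hermiteGen d m v) :=
  equality_case d hd lam mu nu hl hm hnu heq

end Pool.Agent.Results.MP_a687e6_pr.EqualityCase
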